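import Pool.Agent.H92.KST.TargetsX

/-!
# Row GENF of the board `kst_modules`
-/

set_option autoImplicit false
set_option linter.dupNamespace false

universe u

open Pool.Agent.H92.KST Pool.Agent.H62.MK Pool.Agent.H19.KN

namespace Pool.Agent.H63.KST

theorem height_eq_of_one {A : Type u} [CommRing A] [IsDomain A] {P Q : Ideal A} (hP : P.IsPrime)
    (hQ : Q.IsPrime) (h : P ≤ Q) (h1 : Q.height = 1) (h0 : P ≠ ⊥) : P = Q := by
  by_contra hne
  have hlt : P < Q := lt_of_le_of_ne h hne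
  have h2 := Ideal.height_add_one_le_of_lt_of_isPrime hlt
  rw [h1] at h2
  have h3 : P.height ≠ 0 := fun h3 => h0 (Ideal.height_eq_zero_iff_eq_bot.1 h3)
  have h4 : P.height ≠ ⊤ := by
    intro h4
    rw [h4] at h2
    simp at h2
  obtain ⟨m, hm⟩ := ENat.ne_top_iff_exists.1 h4
  rw [← hm] at h2 h3
  have h5 : m + 1 ≤ 1 := by exact_mod_cast h2
  have h6 : m ≠ 0 := by exact_mod_cast h3
  omega

theorem pf_GENF : T_GENF.{u} := by
  intro F _ O π q E h
  let R := integralClosure O F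
  have hint : Algebra.IsIntegral O R := inferInstance
  have hinj : Function.Injective (algebraMap O R) := by
    intro a b hab
    have h1 : ((algebraMap O R a : R) : F) = ((algebraMap O R b : R) : F) := by rw [hab]
    exact Subtype.ext h1
  have hker : RingHom.ker (algebraMap O R) = ⊥ := (RingHom.injective_iff_ker_eq_bot _).1 hinj
  have hR : IsNoetherianRing R := h.noethR
  have hOver : ∀ y : Ideal O, y.IsPrime → (Over O y).Finite ∧ (Over O y).Nonempty := by
    intro y hy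
    constructor
    · refine (Ideal.finite_minimalPrimes_of_isNoetherianRing R (y.map (algebraMap O R))).subset ?_
      rintro Q ⟨hQ, hQy⟩
      refine ⟨⟨hQ, ?_⟩, ?_⟩
      · rw [Ideal.map_le_iff_le_comap, hQy]
      · rintro Q' ⟨hQ', hle⟩ hQQ
        by_contra hn
        have hlt : Q' < Q := lt_of_le_not_ge hQQ hn
        have h1 := Ideal.IsIntegral.comap_lt_comap (R := O) hlt
        rw [hQy] at h1
        exact absurd (Ideal.map_le_iff_le_comap.1 hle) (not_le_of_gt h1)
    · obtain ⟨Q, hQ, hQy⟩ := Ideal.exists_ideal_over_prime_of_isIntegral_of_isDomain (S := R) y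
        (by rw [hker]; exact bot_le)
      exact ⟨Q, hQ, hQy⟩
  have hht : ∀ k : ℕ∞, ∀ y ∈ YO O π k, ∀ Q ∈ Over O y, Q.height = k := by
    rintro k y ⟨hy, hπ, Q0, hQ0, hk⟩ Q hQ
    rw [← hk]
    exact h.eqh Q Q0 hQ.1 hQ0.1 (hQ.2.trans hQ0.2.symm)
  refine ⟨?_, ?_, fun y hy => hht 2 y hy, fun y hy => hht 1 y hy, hOver⟩
  · let π' : R := algebraMap O R ⟨π, h.pi_mem⟩
    have hπ0 : π' ≠ 0 := by
      intro h0
      have : (π' : F) = 0 := by rw [h0]; rfl
      exact h.pi_ne this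
    refine ((Ideal.finite_minimalPrimes_of_isNoetherianRing R
      (Ideal.span {π'})).image (Ideal.comap (algebraMap O R))).subset ?_
    rintro y ⟨hy, ⟨hπ, hπy⟩, Q, ⟨hQ, hQy⟩, hQ1⟩
    have hπQ : π' ∈ Q := by
      rw [← hQy] at hπy
      exact hπy
    refine ⟨Q, ⟨⟨hQ, ?_⟩, ?_⟩, hQy⟩
    · rwa [Ideal.span_singleton_le_iff_mem]
    · rintro Q' ⟨hQ', hle⟩ hQQ
      have hπQ' : π' ∈ Q' := (Ideal.span_singleton_le_iff_mem _).1 hle
      have h0 : Q' ≠ ⊥ := by
        intro h0
        rw [h0] at hπQ'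
        exact hπ0 hπQ'
      exact (height_eq_of_one hQ' hQ hQQ hQ1 h0).ge
  · intro y hy z hz hz0 hzy
    obtain ⟨Qz, hQz, hQzz⟩ := (hOver z hz).2
    have := hy.1
    obtain ⟨Q, hle, hQ, hQy⟩ := Ideal.exists_ideal_over_prime_of_isIntegral_of_isPrime y Qz
      (by rw [hQzz]; exact hzy)
    have h1 : Q.height = 1 := hht 1 y hy Q ⟨hQ, hQy⟩
    have h0 : Qz ≠ ⊥ := by
      intro h0
      apply hz0
      rw [← hQzz, h0]
      exact (RingHom.injective_iff_ker_eq_bot _).1 hinj
    have h2 := height_eq_of_one hQz hQ hle h1 h0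
    rw [← hQzz, h2, hQy]

end Pool.Agent.H63.KST
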