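import Pool.Agent.H92.KST.Targets

/-!
# Row LE2 of the board `kst_modules`
-/

set_option autoImplicit false
set_option linter.dupNamespace false
set_option linter.unusedSectionVars false

universe u

open Pool.Agent.H92.KST

namespace Pool.Agent.H63.KST

section api

variable {R F : Type u} [CommRing R] [IsDomain R] [Field F] [Algebra R F] [IsFractionRing R F]

theorem am_ne {s : R} (hs : s ≠ 0) : algebraMap R F s ≠ 0 := by
  intro h
  exact hs (IsFractionRing.injective R F (by rw [h, map_zero]))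

variable {T : Set (Ideal R)}

theorem inL_mono {T' : Set (Ideal R)} {f : F} (h : InL T f)
    (hT : ∀ q' ∈ T', ∃ q ∈ T, q' ≤ q) : InL T' f := by
  obtain ⟨s, r, h1, h2, h3⟩ := h
  refine ⟨s, r, h1, fun q' hq' hs => ?_, h3⟩
  obtain ⟨q, hq, hle⟩ := hT q' hq'
  exact h2 q hq (hle hs)

theorem inL_am (T : Set (Ideal R)) (hT : ∀ q ∈ T, q.IsPrime) (r : R) :
    InL T (algebraMap R F r) := by
  refine ⟨1, r, one_ne_zero, fun q hq h => (hT q hq).ne_top ((Ideal.eq_top_iff_one q).2 h), ?_⟩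
  rw [map_one, one_mul]

theorem inL_frac (T : Set (Ideal R)) {r s : R} (hs0 : s ≠ 0) (hs : ∀ q ∈ T, s ∉ q) :
    InL T (algebraMap R F r / algebraMap R F s) :=
  ⟨s, r, hs0, hs, by rw [mul_div_cancel₀ _ (am_ne hs0)]⟩

theorem inL_mul (hT : ∀ q ∈ T, q.IsPrime) {f g : F} (hf : InL T f) (hg : InL T g) :
    InL T (f * g) := by
  obtain ⟨s, r, h1, h2, h3⟩ := hf
  obtain ⟨s', r', h1', h2', h3'⟩ := hg
  refine ⟨s * s', r * r', mul_ne_zero h1 h1', fun q hq h => ?_, ?_⟩
  · rcases (hT q hq).mem_or_mem h with h | h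
    · exact h2 q hq h
    · exact h2' q hq h
  · rw [map_mul, map_mul, ← h3, ← h3']
    ring

theorem inL_add (hT : ∀ q ∈ T, q.IsPrime) {f g : F} (hf : InL T f) (hg : InL T g) :
    InL T (f + g) := by
  obtain ⟨s, r, h1, h2, h3⟩ := hf
  obtain ⟨s', r', h1', h2', h3'⟩ := hg
  refine ⟨s * s', s' * r + s * r', mul_ne_zero h1 h1', fun q hq h => ?_, ?_⟩
  · rcases (hT q hq).mem_or_mem h with h | h
    · exact h2 q hq h
    · exact h2' q hq h
  · rw [map_mul, map_add, map_mul, map_mul, ← h3, ← h3']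
    ring

/-- the elements `1 + p c` are units of `R_T` -/
theorem one_add_ne (hT : ∀ q ∈ T, q.IsPrime) (hne : T.Nonempty) {p : R} (hp : ∀ q ∈ T, p ∈ q)
    (j : ℕ) {c : F} (hc : InL T c) : 1 + algebraMap R F p ^ (j + 1) * c ≠ 0 ∧
      ∀ f : F, InL T f → InL T (f / (1 + algebraMap R F p ^ (j + 1) * c)) := by
  obtain ⟨s, r, h1, h2, h3⟩ := hc
  have h4 : ∀ q ∈ T, s + p ^ (j + 1) * r ∉ q := by
    intro q hq h
    have : p ^ (j + 1) * r ∈ q := Ideal.mul_mem_right _ _ (q.pow_mem_of_mem (hp q hq) _ (by omega))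
    exact h2 q hq ((q.add_mem_iff_left this).1 h)
  have h5 : s + p ^ (j + 1) * r ≠ 0 := by
    obtain ⟨q, hq⟩ := hne
    intro h
    exact h4 q hq (by rw [h]; exact q.zero_mem)
  have h6 : algebraMap R F s * (1 + algebraMap R F p ^ (j + 1) * c) =
      algebraMap R F (s + p ^ (j + 1) * r) := by
    rw [map_add, map_mul, map_pow, ← h3]
    ring
  have h7 : 1 + algebraMap R F p ^ (j + 1) * c ≠ 0 := by
    intro h
    rw [h, mul_zero] at h6
    exact am_ne (F := F) h5 h6.symm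
  refine ⟨h7, fun f hf => ?_⟩
  obtain ⟨s', r', g1, g2, g3⟩ := hf
  refine ⟨s' * (s + p ^ (j + 1) * r), r' * s, mul_ne_zero g1 h5, fun q hq h => ?_, ?_⟩
  · rcases (hT q hq).mem_or_mem h with h | h
    · exact g2 q hq h
    · exact h4 q hq h
  · rw [map_mul, ← h6, map_mul, ← g3]
    field_simp

theorem inJ_mono {k k' : ℕ} (hk : k ≤ k') {d : F} (h : InJ T k' d) : InJ T k d := by
  obtain ⟨s, r, h1, h2, h3, h4⟩ := h
  exact ⟨s, r, h1, h2, Ideal.pow_le_pow_right hk h3, h4⟩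

end api

section symb

variable {F M : Type u} [Field F] [AddCommGroup M] (σ : Symb F M)

theorem s_one_left {b : F} (hb : b ≠ 0) : σ.s 1 b = 0 := by
  have h := σ.mul_left 1 1 b one_ne_zero one_ne_zero hb
  rw [one_mul] at h
  exact (left_eq_add.1 h)

theorem s_one_right {a : F} (ha : a ≠ 0) : σ.s a 1 = 0 := by
  have h := σ.mul_right a 1 1 ha one_ne_zero one_ne_zero
  rw [one_mul] at h
  exact (left_eq_add.1 h)

theorem s_inv_left {a b : F} (ha : a ≠ 0) (hb : b ≠ 0) : σ.s a⁻¹ b = -σ.s a b := by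
  have h := σ.mul_left a a⁻¹ b ha (inv_ne_zero ha) hb
  rw [mul_inv_cancel₀ ha, s_one_left σ hb] at h
  exact (neg_eq_of_add_eq_zero_right h.symm).symm

theorem s_inv_right {a b : F} (ha : a ≠ 0) (hb : b ≠ 0) : σ.s a b⁻¹ = -σ.s a b := by
  have h := σ.mul_right a b b⁻¹ ha hb (inv_ne_zero hb)
  rw [mul_inv_cancel₀ hb, s_one_right σ ha] at h
  exact (neg_eq_of_add_eq_zero_right h.symm).symm

theorem s_div_left {a b c : F} (ha : a ≠ 0) (hb : b ≠ 0) (hc : c ≠ 0) :
    σ.s (a / b) c = σ.s a c - σ.s b c := by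
  rw [div_eq_mul_inv, σ.mul_left _ _ _ ha (inv_ne_zero hb) hc, s_inv_left σ hb hc, sub_eq_add_neg]

theorem s_div_right {a b c : F} (ha : a ≠ 0) (hb : b ≠ 0) (hc : c ≠ 0) :
    σ.s a (b / c) = σ.s a b - σ.s a c := by
  rw [div_eq_mul_inv, σ.mul_right _ _ _ ha hb (inv_ne_zero hc), s_inv_right σ ha hc,
    sub_eq_add_neg]

/-- `{a, -a} = 0` -/
theorem s_neg_self {a : F} (ha : a ≠ 0) : σ.s a (-a) = 0 := by
  by_cases h1 : a = 1
  · rw [h1]
    exact s_one_left σ (neg_ne_zero.2 one_ne_zero)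
  · have h2 : 1 - a ≠ 0 := sub_ne_zero.2 (fun h => h1 h.symm)
    have h3 : 1 - a⁻¹ ≠ 0 := by
      intro h
      have : a⁻¹ = 1 := (sub_eq_zero.1 h).symm
      exact h1 (inv_eq_one.1 this)
    have h4 : -a = (1 - a) / (1 - a⁻¹) := by
      rw [eq_div_iff h3]
      field_simp
      ring
    have h5 := σ.st a (1 - a) ha h2 (by ring)
    have h6 := σ.st a⁻¹ (1 - a⁻¹) (inv_ne_zero ha) h3 (by ring)
    rw [s_inv_left σ ha h3, neg_eq_zero] at h6
    rw [h4, s_div_right σ ha h2 h3, h5, h6, sub_zero]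

/-- antisymmetry -/
theorem s_anti {a b : F} (ha : a ≠ 0) (hb : b ≠ 0) : σ.s a b = -σ.s b a := by
  have hab := mul_ne_zero ha hb
  have hna := neg_ne_zero.2 ha
  have hnb := neg_ne_zero.2 hb
  have h1 := s_neg_self σ hab
  have h2 : σ.s (a * b) (-(a * b)) = σ.s a (-(a * b)) + σ.s b (-(a * b)) :=
    σ.mul_left _ _ _ ha hb (neg_ne_zero.2 hab)
  have h3 : σ.s a (-(a * b)) = σ.s a (-a) + σ.s a b := by
    rw [← σ.mul_right _ _ _ ha hna hb, neg_mul]
  have h4 : σ.s b (-(a * b)) = σ.s b a + σ.s b (-b) := by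
    rw [← σ.mul_right _ _ _ hb ha hnb, mul_neg]
  rw [h2, h3, h4, s_neg_self σ ha, s_neg_self σ hb, zero_add, add_zero] at h1
  exact eq_neg_of_add_eq_zero_left h1

end symb

section small

variable {R F M : Type u} [CommRing R] [IsDomain R] [Field F] [Algebra R F] [IsFractionRing R F]
  [AddCommGroup M] (S : Sit R) (σ : Symb F M)

theorem mem_U {T : Set (Ideal R)} {x g : F} (hx : x ≠ 0) (hg : g ≠ 0)
    (h : InL T ((x - 1) / algebraMap R F S.p ^ (S.n + 1))) : σ.s x g ∈ U S σ T := by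
  have hp : algebraMap R F S.p ^ (S.n + 1) ≠ 0 := pow_ne_zero _ (am_ne S.p0)
  have e : 1 + algebraMap R F S.p ^ (S.n + 1) * ((x - 1) / algebraMap R F S.p ^ (S.n + 1)) = x := by
    rw [mul_div_cancel₀ _ hp]
    ring
  refine AddSubgroup.subset_closure ⟨_, g, h, hg, ?_, ?_⟩
  · rw [e]; exact hx
  · rw [e]

theorem mem_U' {T : Set (Ideal R)} {x g : F} (hx : x ≠ 0) (hg : g ≠ 0)
    (h : InL T ((x - 1) / algebraMap R F S.p ^ (S.n + 1))) : σ.s g x ∈ U S σ T := by
  rw [s_anti σ hg hx]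
  exact (U S σ T).neg_mem (mem_U S σ hx hg h)

/-- the symbol `{1 + A, 1 + B}` with `A B` small -/
theorem small_prod {T : Set (Ideal R)} (hT : ∀ q ∈ T, q.IsPrime) (hne : T.Nonempty)
    (hp : ∀ q ∈ T, S.p ∈ q) {A B c : F} (hc : InL T c)
    (hAB : A * B = algebraMap R F S.p ^ (S.n + 1) * c) (hA : 1 + A ≠ 0) (hB : 1 + B ≠ 0) :
    σ.s (1 + A) (1 + B) ∈ U S σ T := by
  by_cases hA0 : A = 0
  · rw [hA0, add_zero, s_one_left σ hB]
    exact zero_mem _
  · have hc' : InL T (-c) := by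
      have := inL_mul hT (inL_am (F := F) T hT (-1)) hc
      rwa [map_neg, map_one, neg_one_mul] at this
    have ht : 1 + algebraMap R F S.p ^ (S.n + 1) * (-c) ≠ 0 := (one_add_ne hT hne hp S.n hc').1
    set t : F := 1 + algebraMap R F S.p ^ (S.n + 1) * (-c) with htd
    have hw : -A * (1 + B) ≠ 0 := mul_ne_zero (neg_ne_zero.2 hA0) hB
    have e1 : (1 + A) + -A * (1 + B) = t := by
      rw [htd]
      linear_combination -hAB
    have h1 : σ.s (1 + A) (-A * (1 + B)) = σ.s (1 + A) (1 + B) := by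
      rw [σ.mul_right _ _ _ hA (neg_ne_zero.2 hA0) hB]
      have := σ.st (1 + A) (-A) hA (neg_ne_zero.2 hA0) (by ring)
      rw [this, zero_add]
    have h2 := σ.st ((1 + A) / t) (-A * (1 + B) / t) (div_ne_zero hA ht) (div_ne_zero hw ht)
      (by rw [← add_div, e1, div_self ht])
    rw [s_div_left σ hA ht (div_ne_zero hw ht), s_div_right σ hA hw ht,
      s_div_right σ ht hw ht, h1] at h2
    have hts : InL T ((t - 1) / algebraMap R F S.p ^ (S.n + 1)) := by
      have hp0 : algebraMap R F S.p ^ (S.n + 1) ≠ 0 := pow_ne_zero _ (am_ne S.p0)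
      have : (t - 1) / algebraMap R F S.p ^ (S.n + 1) = -c := by
        rw [htd, add_sub_cancel_left, mul_div_cancel_left₀ _ hp0]
      rw [this]
      exact hc'
    have m1 : σ.s (1 + A) t ∈ U S σ T := mem_U' S σ ht hA hts
    have m2 : σ.s t (-A * (1 + B)) ∈ U S σ T := mem_U S σ ht hw hts
    have m3 : σ.s t t ∈ U S σ T := mem_U S σ ht ht hts
    have e3 : σ.s (1 + A) (1 + B) = σ.s (1 + A) t + (σ.s t (-A * (1 + B)) - σ.s t t) := by
      have := sub_eq_zero.1 h2
      rw [← this]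
      abel
    rw [e3]
    exact (U S σ T).add_mem m1 ((U S σ T).sub_mem m2 m3)

theorem mem_U_add {T : Set (Ideal R)} {c g : F} (hc : InL T c) (hg : g ≠ 0)
    (h : 1 + algebraMap R F S.p ^ (S.n + 1) * c ≠ 0) :
    σ.s (1 + algebraMap R F S.p ^ (S.n + 1) * c) g ∈ U S σ T :=
  AddSubgroup.subset_closure ⟨c, g, hc, hg, h, rfl⟩

theorem mem_U_add' {T : Set (Ideal R)} {c g : F} (hc : InL T c) (hg : g ≠ 0)
    (h : 1 + algebraMap R F S.p ^ (S.n + 1) * c ≠ 0) :
    σ.s g (1 + algebraMap R F S.p ^ (S.n + 1) * c) ∈ U S σ T := by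
  rw [s_anti σ hg h]
  exact (U S σ T).neg_mem (mem_U_add S σ hc hg h)

end small

theorem height_one {R : Type u} [CommRing R] [IsDomain R] {P q : Ideal R} (hP : P.IsPrime)
    (hq : q.IsPrime) (h : P < q) (hh : q.height = 2) (h0 : P ≠ ⊥) : P.height = 1 := by
  have h1 := Ideal.height_add_one_le_of_lt_of_isPrime h
  rw [hh] at h1
  have h2 : P.height ≠ 0 := fun h2 => h0 (Ideal.height_eq_zero_iff_eq_bot.1 h2)
  have h3 : P.height ≠ ⊤ := by
    intro h3
    rw [h3] at h1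
    simp at h1
  obtain ⟨m, hm⟩ := ENat.ne_top_iff_exists.1 h3
  rw [← hm] at h1 h2 ⊢
  have h4 : m + 1 ≤ 2 := by exact_mod_cast h1
  have h5 : m ≠ 0 := by exact_mod_cast h2
  have h6 : m = 1 := by omega
  rw [h6]
  rfl

theorem pf_LE2 (hRAD : T_RAD.{u}) (hFIN : T_FIN.{u}) (hCRT : T_CRT.{u}) (hWST : T_WST.{u})
    (hMV1 : T_MV1.{u}) : T_LE2.{u} := by
  classical
  intro R F M _ _ _ _ _ _ _ _ S σ y b g hb hbe hg hgP
  have hT : ∀ q ∈ S.T y, q.IsPrime := S.pr y
  have hne : (S.T y).Nonempty := S.ne y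
  have hpT : ∀ q ∈ S.T y, S.p ∈ q := S.mem y
  have hp0 : algebraMap R F S.p ≠ 0 := am_ne S.p0
  have hb0 : algebraMap R F b ≠ 0 := am_ne hb
  have hg0 : algebraMap R F g ≠ 0 := am_ne hg
  -- a power of `p` is a combination of `b` and `g`
  obtain ⟨k, s, hs0, hsT, hsk⟩ := hRAD R (S.T y) (S.fin y) hne hT (Ideal.span {b, g})
    (Ideal.span {S.p}) (by
      intro P hP hbel
      obtain ⟨q, hq, hPq⟩ := hbel
      have hPp : P.IsPrime := hP.1.1
      have hIP : Ideal.span {b, g} ≤ P := hP.1.2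
      have hbP : b ∈ P := hIP (Ideal.subset_span (by simp))
      have hgP' : g ∈ P := hIP (Ideal.subset_span (by simp))
      rw [Ideal.span_singleton_le_iff_mem]
      by_contra hpP
      have hlt : P < q := lt_of_le_of_ne hPq (fun h => hpP (by rw [h]; exact hpT q hq))
      have h1 : P.height = 1 := height_one hPp (hT q hq) hlt (S.ht y q hq)
        (fun h => hb (by rw [h] at hbP; exact hbP))
      exact hgP P ⟨hPp, h1, hpP⟩ ⟨q, hq, hPq⟩ hbP hgP')
  obtain ⟨r1, r2, hr⟩ := Ideal.mem_span_pair.1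
    (hsk (S.p ^ k) (Ideal.pow_mem_pow (Ideal.mem_span_singleton_self _) k))
  have hs0' : algebraMap R F s ≠ 0 := am_ne hs0
  obtain ⟨l, hl, m, hm, hpk⟩ : ∃ l : F, InL (S.T y) l ∧ ∃ m : F, InL (S.T y) m ∧
      algebraMap R F S.p ^ k = algebraMap R F b * l + algebraMap R F g * m := by
    refine ⟨algebraMap R F r1 / algebraMap R F s, inL_frac _ hs0 hsT,
      algebraMap R F r2 / algebraMap R F s, inL_frac _ hs0 hsT, ?_⟩
    have h1 := congrArg (algebraMap R F) hr
    rw [map_add, map_mul, map_mul, map_mul, map_pow] at h1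
    field_simp
    linear_combination -h1
  -- decomposition of the small elements
  obtain ⟨K1, s', hs1, hsT', hsk'⟩ := hRAD R (S.T y) (S.fin y) hne hT
    (Ideal.span {b, S.p ^ (S.n + 1 + k)}) (sInf (S.T y)) (by
      intro P hP hbel
      obtain ⟨q, hq, hPq⟩ := hbel
      have hPp : P.IsPrime := hP.1.1
      have hIP : Ideal.span {b, S.p ^ (S.n + 1 + k)} ≤ P := hP.1.2
      have hbP : b ∈ P := hIP (Ideal.subset_span (by simp))
      have hpP : S.p ∈ P := hPp.mem_of_pow_mem _ (hIP (Ideal.subset_span (Set.mem_insert_of_mem _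
        (Set.mem_singleton _))))
      by_cases hEq : P = q
      · rw [hEq]
        exact sInf_le hq
      · have hlt : P < q := lt_of_le_of_ne hPq hEq
        have h1 : P.height = 1 := height_one hPp (hT q hq) hlt (S.ht y q hq)
          (fun h => hb (by rw [h] at hbP; exact hbP))
        exact absurd hbP (hbe P ⟨hPp, h1, hpP⟩ ⟨q, hq, hPq⟩))
  have hdec : ∀ d : F, InJ (S.T y) K1 d → ∃ d1 d2 : F, InL (S.T y) d1 ∧ InL (S.T y) d2 ∧
      d = algebraMap R F b * d1 + algebraMap R F S.p ^ (S.n + 1 + k) * d2 := by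
    rintro d ⟨s1, r, h1, h2, h3, h4⟩
    obtain ⟨a1, a2, ha⟩ := Ideal.mem_span_pair.1 (hsk' r h3)
    have hss : ∀ q ∈ S.T y, s' * s1 ∉ q := by
      intro q hq h
      rcases (hT q hq).mem_or_mem h with h | h
      · exact hsT' q hq h
      · exact h2 q hq h
    refine ⟨algebraMap R F a1 / algebraMap R F (s' * s1),
      algebraMap R F a2 / algebraMap R F (s' * s1), inL_frac _ (mul_ne_zero hs1 h1) hss,
      inL_frac _ (mul_ne_zero hs1 h1) hss, ?_⟩
    have h5 := congrArg (algebraMap R F) ha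
    rw [map_add, map_mul, map_mul, map_mul, map_pow, ← h4] at h5
    have h6 : algebraMap R F s' ≠ 0 := am_ne hs1
    have h7 : algebraMap R F s1 ≠ 0 := am_ne h1
    rw [map_mul]
    field_simp
    linear_combination -h5
  refine ⟨S.n + 1 + k, fun N hN e he hx0 => ?_⟩
  obtain ⟨j, rfl⟩ := Nat.exists_eq_add_of_le hN
  set pp : F := algebraMap R F S.p with hpp
  set bb : F := algebraMap R F b with hbb
  set gg : F := algebraMap R F g with hgg
  set x : F := 1 + pp ^ (S.n + 1 + k + j) * (e / bb) with hx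
  have hpj : ∀ i : ℕ, InL (S.T y) (pp ^ i) := fun i => by
    rw [hpp, ← map_pow]
    exact inL_am _ hT _
  have hc1 : InL (S.T y) (pp ^ j * e * l) := inL_mul hT (inL_mul hT (hpj j) he) hl
  obtain ⟨hv0, hvdiv⟩ := one_add_ne hT hne hpT S.n hc1
  rw [← hpp] at hv0 hvdiv
  set v : F := 1 + pp ^ (S.n + 1) * (pp ^ j * e * l) with hv
  have hm' : InL (S.T y) (pp ^ j * m * e / v) :=
    hvdiv _ (inL_mul hT (inL_mul hT (hpj j) hm) he)
  set m' : F := pp ^ j * m * e / v with hm'def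
  have hvm : v * m' = pp ^ j * m * e := by
    rw [hm'def]
    field_simp
  have hxv : x = v * (1 + pp ^ (S.n + 1) * gg * m' / bb) := by
    have e1 : v * (1 + pp ^ (S.n + 1) * gg * m' / bb) =
        v + pp ^ (S.n + 1) * gg * (v * m') / bb := by ring
    rw [e1, hvm, hv, hx]
    have e2 : pp ^ (S.n + 1 + k + j) = pp ^ (S.n + 1) * pp ^ j * pp ^ k := by ring
    rw [e2, hpk]
    field_simp
    ring
  have hA0 : 1 + pp ^ (S.n + 1) * gg * m' / bb ≠ 0 := by
    intro h
    rw [h, mul_zero] at hxv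
    exact hx0 hxv
  -- (WST)
  obtain ⟨w, hw0, hwT, hwS⟩ := hWST R F S y x hx0 (by
    intro e' he' hbel
    have hT' : ∀ q ∈ ({e'} : Set (Ideal R)), q.IsPrime := by
      intro q hq
      rw [Set.mem_singleton_iff] at hq
      rw [hq]
      exact he'.1
    have h1 : (x - 1) / pp ^ (S.n + 1) =
        algebraMap R F (S.p ^ (k + j)) * (e * (algebraMap R F 1 / bb)) := by
      rw [hx, map_pow, ← hpp, map_one]
      have e2 : pp ^ (S.n + 1 + k + j) = pp ^ (S.n + 1) * pp ^ (k + j) := by ring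
      rw [e2]
      field_simp
      ring
    rw [← hpp, h1]
    refine inL_mul hT' (inL_am _ hT' _) (inL_mul hT' (inL_mono he ?_) (inL_frac _ hb ?_))
    · intro q' hq'
      rw [Set.mem_singleton_iff] at hq'
      rw [hq']
      exact hbel
    · intro q' hq'
      rw [Set.mem_singleton_iff] at hq'
      rw [hq']
      exact hbe e' he' hbel)
  obtain ⟨b2, a2, hb20, hb2S, hb2⟩ := hwS
  rw [← hpp] at hb2
  have hb2' : algebraMap R F b2 ≠ 0 := am_ne hb20
  have hu2 : w * x = 1 + pp ^ (S.n + 1) * (algebraMap R F a2 / algebraMap R F b2) := by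
    rw [← hb2]
    field_simp
    ring
  have hwx : w * x ≠ 0 := mul_ne_zero hw0 hx0
  have hE0 := ((hFIN R F).2.2 S).2.1 b2 hb20 hb2S
  have hMV := fun y' => hMV1 R F M S σ y' b2 hb20 (fun e he _ => hb2S e he)
  choose kk hkk using hMV
  set E : Set S.Y := insert y {y' | ∃ q ∈ S.T y', b2 ∈ q} with hEdef
  have hE : E.Finite := hE0.insert y
  obtain ⟨Kb, hKb⟩ := (hE.image kk).bddAbove
  obtain ⟨ρ, hρ0, -, hρJ⟩ := hCRT R F S E hE (fun y' => if y' = y then gg else 1) (by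
    intro y' _
    by_cases h : y' = y
    · simp only [h, if_true]
      exact inL_am _ hT g
    · simp only [h, if_false]
      have := inL_am (F := F) (S.T y') (S.pr y') 1
      rwa [map_one] at this) (max K1 Kb)
  refine ⟨σ.s (w * x) ρ, ?_, ?_, ?_⟩
  · exact mem_U S σ hwx hρ0 ⟨b2, a2, hb20, hb2S, hb2⟩
  · rw [σ.mul_left _ _ _ hw0 hx0 hρ0, add_sub_assoc]
    refine add_mem (mem_U S σ hw0 hρ0 hwT) ?_
    have hd := hρJ y (Set.mem_insert _ _)
    simp only [if_true] at hd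
    obtain ⟨d1, d2, hd1, hd2, hdd⟩ := hdec _ (inJ_mono (le_max_left _ _) hd)
    have hD1 : InL (S.T y) (d1 + pp ^ (S.n + 1) * (l * d2)) :=
      inL_add hT hd1 (inL_mul hT (hpj _) (inL_mul hT hl hd2))
    have hD2 : InL (S.T y) (m * d2) := inL_mul hT hm hd2
    set D1 : F := d1 + pp ^ (S.n + 1) * (l * d2) with hD1def
    set D2 : F := m * d2 with hD2def
    have hdd' : ρ - gg = bb * D1 + pp ^ (S.n + 1) * gg * D2 := by
      rw [hdd, pow_add pp (S.n + 1) k, hpk, hD1def, hD2def]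
      ring
    obtain ⟨ht0, htdiv⟩ := one_add_ne hT hne hpT S.n hD2
    rw [← hpp] at ht0 htdiv
    set t : F := 1 + pp ^ (S.n + 1) * D2 with ht
    have hD1' := htdiv _ hD1
    have hρ : ρ = gg * (t * (1 + bb * (D1 / t) / gg)) := by
      have e1 : ρ = gg + (bb * D1 + pp ^ (S.n + 1) * gg * D2) := by rw [← hdd']; ring
      rw [e1, ht]
      rw [ht] at ht0
      field_simp
      ring
    have hB0 : 1 + bb * (D1 / t) / gg ≠ 0 := by
      intro h
      rw [h, mul_zero, mul_zero] at hρ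
      exact hρ0 hρ
    have e2 : σ.s x ρ - σ.s x gg = σ.s x t + (σ.s v (1 + bb * (D1 / t) / gg) +
        σ.s (1 + pp ^ (S.n + 1) * gg * m' / bb) (1 + bb * (D1 / t) / gg)) := by
      rw [← σ.mul_left _ _ _ hv0 hA0 hB0, ← hxv, ← σ.mul_right _ _ _ hx0 ht0 hB0]
      conv_lhs => rw [hρ]
      rw [σ.mul_right _ _ _ hx0 hg0 (mul_ne_zero ht0 hB0)]
      abel
    rw [e2]
    refine add_mem (mem_U_add' S σ hD2 hx0 ht0) (add_mem (mem_U_add S σ hc1 hB0 hv0) ?_)
    refine small_prod S σ hT hne hpT (inL_mul hT hm' hD1') ?_ hA0 hB0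
    rw [← hpp]
    field_simp
  · intro y' hy'
    by_cases hE' : ∃ q ∈ S.T y', b2 ∈ q
    · have hmem : y' ∈ E := Set.mem_insert_of_mem _ hE'
      have h1 := hρJ y' hmem
      simp only [hy', if_false] at h1
      have h2 := hkk y' a2 ρ hρ0 (inJ_mono
        ((hKb (Set.mem_image_of_mem kk hmem)).trans (le_max_right _ _)) h1)
        (by rw [← hpp, ← hu2]; exact hwx)
      rwa [← hpp, ← hu2] at h2
    · push Not at hE'
      exact mem_U S σ hwx hρ0 ⟨b2, a2, hb20, hE', hb2⟩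

end Pool.Agent.H63.KST
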